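import Pool.Agent.T2h19.AP.Stm

/-! AP / HOM: homogenisation of a fraction (no geometry). -/

namespace Pool.Agent.T2h9.AP

open MvPolynomial Pool.Agent.T2h19.AP

theorem hom_ : S_HOM := by
  classical
  intro σ _ g
  refine ⟨g.totalDegree, fun M hM a b => ?_⟩
  have hdeg : ∀ m ∈ g.support, (m.sum fun _ e => e) ≤ M := fun m hm =>
    (le_totalDegree hm).trans hM
  refine ⟨∑ m ∈ g.support, C (coeff m g) * ((∏ j, b j ^ m j) * a ^ (M - m.sum fun _ e => e)), ?_, ?_⟩
  · intro z hz
    rw [map_sum, eval_eq' (fun j => eval z (b j) / eval z a) g, Finset.mul_sum]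
    refine Finset.sum_congr rfl fun m hm => ?_
    have h1 := hdeg m hm
    simp only [map_mul, eval_C, map_prod, map_pow, div_pow, Finset.prod_div_distrib]
    have h2 : (∏ j, (eval z a) ^ m j) = eval z a ^ (m.sum fun _ e => e) := by
      rw [Finset.prod_pow_eq_pow_sum, Finsupp.sum_fintype _ _ (fun _ => rfl)]
    rw [h2]
    have h3 : eval z a ^ M = eval z a ^ (M - m.sum fun _ e => e) * eval z a ^ (m.sum fun _ e => e) := by
      rw [← pow_add, Nat.sub_add_cancel h1]
    have h4 : eval z a ^ (m.sum fun _ e => e) ≠ 0 := pow_ne_zero _ hz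
    rw [h3]
    field_simp
  · intro ha hb
    refine IsHomogeneous.sum _ _ _ fun m hm => ?_
    have h1 := hdeg m hm
    have h2 : (∏ j, b j ^ m j).IsHomogeneous (∑ j, 1 * m j) :=
      IsHomogeneous.prod _ _ _ fun j _ => (hb j).pow (m j)
    have h3 := (isHomogeneous_C σ (coeff m g)).mul (h2.mul (ha.pow (M - m.sum fun _ e => e)))
    have h4 : 0 + ((∑ j, 1 * m j) + 1 * (M - m.sum fun _ e => e)) = M := by
      rw [Finsupp.sum_fintype _ _ (fun _ => rfl)] at h1 ⊢
      simp only [one_mul, zero_add]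
      omega
    rw [h4] at h3
    exact h3

end Pool.Agent.T2h9.AP
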